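import Pool.Agent.MARK.FIN

/-!
MP_b6e19e_al, Q1: the maximum over n ≥ 1 of the marking numbers m(S_n) is 4.
-/

namespace Pool.Agent.Results.MP_b6e19e_al.MaxFour

open Equiv MARK

/-- For every `n ≥ 1` the marking number of the symmetric group on `n` letters exists, the one
of the symmetric group on six letters is `4`, and the largest marking number is `4`. -/
theorem result : (∀ n : ℕ, 1 ≤ n → (markingSizes (Perm (Fin n))).Nonempty) ∧
    IsLeast (markingSizes (Perm (Fin 6))) 4 ∧
    IsGreatest {c : ℕ | ∃ n : ℕ, 1 ≤ n ∧ IsLeast (markingSizes (Perm (Fin n))) c} 4 := by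
  refine ⟨FIN_main.1, ⟨?_, ?_⟩, FIN_main.2⟩
  · obtain ⟨c, hc, hc4⟩ := UB_main 6 (by norm_num)
    have : c = 4 := le_antisymm hc4 (LW_main c hc)
    rw [← this]
    exact hc
  · intro c hc
    exact LW_main c hc

end Pool.Agent.Results.MP_b6e19e_al.MaxFour
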